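import Pool.Agent.Helper793.Sand.Neg2

set_option maxHeartbeats 4000000

open Filter Topology

/-!
# Universality threshold for sandpile groups of Erdős–Rényi graphs (MP_49901c_pr, Q1)

`Sand.PUniversal p q`: for every finite abelian `p`-group `H`,
`P[G(n,q(n)) connected and K(G)_p ≅ H] → μ_p(H)` as `n → ∞`.
`Sand.PUniversalOn p q S`: the same limit along numbers of vertices `n ∈ S`.
-/

namespace Pool.Agent.Results.MP_49901c_pr.Threshold

open Sand

/-- Sharp thresholds for `p`-universality of `q(n)`, for every prime `p`: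
1. if `q → 0`: `q` is `p`-universal iff `n q - log n → ∞`;
2. if `q → 1`, and `q` is nondecreasing or `n (1 - q) - log n` has a limit in `[-∞, ∞]`:
   `q` is `p`-universal iff `n (1 - q) - log n → ∞`;
3. for every `q → 1`: `n (1 - q) - log n → ∞` implies `p`-universality, and along the numbers of
   vertices divisible by `p` the law converges to `μ_p` iff `n (1 - q) - log n → ∞` along them;
4. in general `n q (1 - q) - log n → ∞` implies `p`-universality. -/
theorem result (p : ℕ) [Fact p.Prime] (q : ℕ → ℝ) (hq : ∀ n, 0 < q n ∧ q n < 1) :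
    (Tendsto q atTop (𝓝 0) →
      (PUniversal p q ↔ Tendsto (fun n : ℕ => n * q n - Real.log n) atTop atTop)) ∧
    (Tendsto q atTop (𝓝 1) →
      (Monotone q ∨ ∃ c : EReal,
        Tendsto (fun n : ℕ => ((n * (1 - q n) - Real.log n : ℝ) : EReal)) atTop (𝓝 c)) →
      (PUniversal p q ↔ Tendsto (fun n : ℕ => n * (1 - q n) - Real.log n) atTop atTop)) ∧
    (Tendsto q atTop (𝓝 1) →
      (Tendsto (fun n : ℕ => n * (1 - q n) - Real.log n) atTop atTop → PUniversal p q) ∧
      (PUniversalOn p q {n | p ∣ n} ↔
        Tendsto (fun n : ℕ => n * (1 - q n) - Real.log n) (atTop ⊓ 𝓟 {n | p ∣ n}) atTop)) ∧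
    (Tendsto (fun n : ℕ => n * (q n * (1 - q n)) - Real.log n) atTop atTop →
      PUniversal p q) :=
  sand_result p q hq

end Pool.Agent.Results.MP_49901c_pr.Threshold
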